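import Pool.Agent.Helper99.DF.St

/-! Module NOE of project DF (MP_d49380_lc), helper92. -/

set_option autoImplicit false

namespace Pool.Agent.Helper92.DF

open Pool.Agent.Helper99.DF

/-- general form over a Noetherian ring -/
theorem noe {A : Type*} [CommRing A] [IsNoetherianRing A] (Φ : A → A) (m : ℕ) (P : Fin m → A) :
    ∃ s : ℕ, ∀ a, ∃ q : ℕ → Fin m → A,
      Φ^[s + 1] (P a) = ∑ j ∈ Finset.range (s + 1), ∑ b, q j b * Φ^[j] (P b) := by
  set I : ℕ → Ideal A := fun s =>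
    Ideal.span (Set.range fun x : Fin (s + 1) × Fin m => Φ^[(x.1 : ℕ)] (P x.2)) with hI
  have hmono : Monotone I := by
    refine monotone_nat_of_le_succ fun s => Ideal.span_mono ?_
    rintro _ ⟨⟨j, b⟩, rfl⟩
    exact ⟨(⟨j, by omega⟩, b), rfl⟩
  obtain ⟨s, hs⟩ := WellFoundedGT.monotone_chain_condition (⟨I, hmono⟩ : ℕ →o Ideal A)
  refine ⟨s, fun a => ?_⟩
  have h1 : Φ^[s + 1] (P a) ∈ I (s + 1) :=
    Ideal.subset_span ⟨(⟨s + 1, by omega⟩, a), rfl⟩
  have h2 : I s = I (s + 1) := hs (s + 1) (Nat.le_succ s)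
  rw [← h2] at h1
  obtain ⟨c, hc⟩ := Ideal.mem_span_range_iff_exists_fun.mp h1
  refine ⟨fun j b => if h : j < s + 1 then c (⟨j, h⟩, b) else 0, ?_⟩
  rw [← hc, Fintype.sum_prod_type, Finset.sum_range]
  refine Finset.sum_congr rfl fun j _ => Finset.sum_congr rfl fun b _ => ?_
  simp only [j.isLt, dite_true, Fin.eta]

theorem hNOE : StNOE := fun _ Φ m P => noe (fun x => Φ x) m P

end Pool.Agent.Helper92.DF
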